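import Pool.Agent.W78.GS.Basic
import Pool.Agent.W803.GA.Pair

/-!
Project GS, task GS-4 (helper347): pairs of close directions with different signs, for a completely
multiplicative function (port of W803/GA/Sect and W803/GA/Pair of helper803).
-/

set_option autoImplicit false

namespace Pool.Agent.W347.GS

open Finset Filter
open Pool.Agent.H376R2.MR (FK Fj Fj_le Fj_le_sq)
open Pool.Agent.W78.GA hiding GG PE sedge S_DEC S_MOM0 S_MOMP S_MOM S_CELLE S_MR S_PAIR S_U0 S_SC S_BETW
open Pool.Agent.W803.GA (rd abs_rd_le rd_eq Fj_rd ang_mul ang_natCast_mul exists_primpart mul_ne_zero'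
  between geom_half geom_quarter pt_bound exists_dt_one prim_of_dt plucker dt_zero sqrt_disc)
open Pool.Agent.W78.GS (Pm)

variable {g : ℕ → ℤ} {t c : ℤ}

/-- BETW: between two primitive vectors with different signs there is a sign change edge -/
def S_BETW (g : ℕ → ℤ) (t c : ℤ) : Prop := ∀ (X : ℝ) (z z' : Qd t c), z ∈ pball t c X → z' ∈ pball t c X →
  0 < dt z z' → g (nm z) ≠ g (nm z') → ∃ e ∈ Pool.Agent.W78.GS.A.sedge g t c X, 0 ≤ dt z e.1 ∧ 0 < dt z e.2 ∧
    0 < dt e.1 z' ∧ 0 ≤ dt e.2 z'

theorem betw (hD : t ^ 2 < 4 * c) : S_BETW g t c := by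
  classical
  intro X
  -- the primitive vectors strictly inside the cone
  set I : Qd t c → Qd t c → Finset (Qd t c) :=
    fun z z' => (pball t c X).filter (fun v => 0 < dt z v ∧ 0 < dt v z') with hI
  have key : ∀ N : ℕ, ∀ z z' : Qd t c, (I z z').card ≤ N → z ∈ pball t c X → z' ∈ pball t c X →
      0 < dt z z' → g (nm z) ≠ g (nm z') →
      ∃ e ∈ Pool.Agent.W78.GS.A.sedge g t c X, 0 ≤ dt z e.1 ∧ 0 < dt z e.2 ∧ 0 < dt e.1 z' ∧ 0 ≤ dt e.2 z' := by
    intro N
    induction N with
    | zero =>
      intro z z' hN hz hz' hd hl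
      have hempty : I z z' = ∅ := Finset.card_eq_zero.1 (Nat.le_zero.1 hN)
      have hno : ∀ v ∈ pball t c X, 0 < dt z v → dt v z' ≤ 0 := by
        intro v hv h1
        by_contra h2
        push Not at h2
        have : v ∈ I z z' := mem_filter.2 ⟨hv, h1, h2⟩
        rw [hempty] at this
        exact absurd this (Finset.notMem_empty _)
      have hzp := ((mem_pball hD).1 hz).1
      have hzp' := ((mem_pball hD).1 hz').1
      -- the determinant is one
      have hd1 : dt z z' = 1 := by
        by_contra hne
        have hm : 2 ≤ dt z z' := by omega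
        set m := dt z z' with hmdef
        obtain ⟨u0, hu0⟩ := exists_dt_one hzp
        -- z' = a z + m u0
        have hzz : ∃ a : ℤ, z' = (a : Qd t c) * z + (m : Qd t c) * u0 := by
          have h1 : dt z (z' - (m : Qd t c) * u0) = 0 := by
            have : dt z (z' - (m : Qd t c) * u0) = dt z z' - m * dt z u0 := by
              unfold dt; simp; ring
            rw [this, hu0, ← hmdef]; ring
          -- multiple of z
          set q := z' - (m : Qd t c) * u0 with hq
          unfold dt at hu0 h1
          set a := q.re * u0.im - q.im * u0.re with ha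
          refine ⟨a, ?_⟩
          have e1 : q.re = a * z.re := by rw [ha]; linear_combination (-q.re) * hu0 + u0.re * h1
          have e2 : q.im = a * z.im := by rw [ha]; linear_combination (-q.im) * hu0 + u0.im * h1
          have : q = (a : Qd t c) * z := by
            apply QuadraticAlgebra.ext
            · simp [e1]
            · simp [e2]
          rw [← this, hq]; ring
        obtain ⟨a, ha⟩ := hzz
        -- reduce modulo m
        set b := (-a) % m with hb
        have hmpos : 0 < m := by omega
        have hb0 : 0 ≤ b := Int.emod_nonneg _ hmpos.ne'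
        have hbm : b < m := Int.emod_lt_of_pos _ hmpos
        obtain ⟨τ, hτ⟩ : ∃ τ : ℤ, -a = b + m * τ := ⟨(-a) / m, (Int.emod_add_mul_ediv _ _).symm⟩
        -- m u = b z + z'
        set u := u0 - (τ : Qd t c) * z with hu
        have hmu : (m : Qd t c) * u = (b : Qd t c) * z + z' := by
          rw [hu, ha]
          have : (a : Qd t c) = -((b : Qd t c) + (m : Qd t c) * (τ : Qd t c)) := by
            have : a = -(b + m * τ) := by linarith
            rw [this]; push_cast; ring
          rw [this]; ring
        have hdu : dt z u = 1 := by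
          have : dt z u = dt z u0 := by rw [hu]; unfold dt; simp; ring
          rw [this, hu0]
        have hup : prim u := prim_of_dt hdu
        have hduz : dt u z' = b := by
          have h1 : m * dt u z' = b * dt z z' := by
            have : m * dt u z' = dt ((m : Qd t c) * u) z' := by unfold dt; simp; ring
            rw [this, hmu]
            unfold dt; simp; ring
          rw [← hmdef] at h1
          have : m * dt u z' = m * b := by linarith
          exact mul_left_cancel₀ hmpos.ne' this
        have hbpos : 0 < b := by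
          rcases hb0.lt_or_eq with h | h
          · exact h
          · exfalso
            rw [← h] at hmu
            simp only [Int.cast_zero, zero_mul, zero_add] at hmu
            unfold prim at hzp'
            have e1 : z'.re = m * u.re := by rw [← hmu]; simp
            have e2 : z'.im = m * u.im := by rw [← hmu]; simp
            rw [e1, e2, Int.gcd_mul_left] at hzp'
            have : m.natAbs = 1 := Nat.eq_one_of_mul_eq_one_right hzp'
            omega
        -- the norm of u
        have hnu : (nm u : ℝ) ≤ X := by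
          have h1 : (m : ℝ) ^ 2 * nm u = b ^ 2 * nm z + b * (2 * ip z z' + t * dt z z') + nm z' := by
            have h2 : m ^ 2 * (nm u : ℤ) = b ^ 2 * nm z + b * (2 * ip z z' + t * dt z z') + nm z' := by
              have e1 : m * u.re = b * z.re + z'.re := by
                have := congrArg QuadraticAlgebra.re hmu
                simpa using this
              have e2 : m * u.im = b * z.im + z'.im := by
                have := congrArg QuadraticAlgebra.im hmu
                simpa using this
              rw [nm_cast hD, nm_cast hD, nm_cast hD]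
              unfold ip dt
              have e3 : m ^ 2 * (u.re ^ 2 + t * u.re * u.im + c * u.im ^ 2) =
                  (m * u.re) ^ 2 + t * (m * u.re) * (m * u.im) + c * (m * u.im) ^ 2 := by ring
              rw [e3, e1, e2]
              ring
            exact_mod_cast h2
          have hzX := ((mem_pball hD).1 hz).2
          have hzX' := ((mem_pball hD).1 hz').2
          have hip : (2 * ip z z' + t * dt z z' : ℝ) ≤ 2 * X := by
            have h2 := ip_dt hD z z'
            have h3 : (2 * ip z z' + t * dt z z' : ℝ) ^ 2 ≤ 4 * (nm z * nm z') := by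
              have : (2 * ip z z' + t * dt z z' : ℤ) ^ 2 ≤ 4 * (nm z * nm z') := by
                rw [h2]
                nlinarith [mul_nonneg (by linarith : 0 ≤ 4 * c - t ^ 2) (sq_nonneg (dt z z'))]
              exact_mod_cast this
            have h4 : (0 : ℝ) ≤ nm z := Nat.cast_nonneg _
            have h5 : (0 : ℝ) ≤ nm z' := Nat.cast_nonneg _
            have hX0 : 0 ≤ X := h4.trans hzX
            have h6 : (2 * ip z z' + t * dt z z' : ℝ) ^ 2 ≤ (2 * X) ^ 2 := by
              calc _ ≤ 4 * ((nm z : ℝ) * nm z') := h3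
                _ ≤ 4 * (X * X) := by
                    have := mul_le_mul hzX hzX' h5 hX0
                    linarith
                _ = (2 * X) ^ 2 := by ring
            exact abs_le_of_sq_le_sq' h6 (by positivity) |>.2
          have hX0 : 0 ≤ X := (Nat.cast_nonneg _).trans hzX
          have hbR : (0 : ℝ) < b := by exact_mod_cast hbpos
          have hbm' : (b : ℝ) + 1 ≤ m := by exact_mod_cast hbm
          have hmR : (0 : ℝ) < m := by exact_mod_cast hmpos
          have h2 : (m : ℝ) ^ 2 * nm u ≤ m ^ 2 * X := by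
            rw [h1]
            calc (b : ℝ) ^ 2 * nm z + b * (2 * ip z z' + t * dt z z') + nm z' ≤
                b ^ 2 * X + b * (2 * X) + X := by
                  have e1 := mul_le_mul_of_nonneg_left hzX (sq_nonneg (b : ℝ))
                  have e2 := mul_le_mul_of_nonneg_left hip (by positivity : (0 : ℝ) ≤ b)
                  linarith
              _ = (b + 1) ^ 2 * X := by ring
              _ ≤ m ^ 2 * X := by
                  apply mul_le_mul_of_nonneg_right _ hX0
                  exact pow_le_pow_left₀ (by positivity) hbm' 2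
          exact le_of_mul_le_mul_left h2 (by positivity)
        have hu_mem : u ∈ pball t c X := (mem_pball hD).2 ⟨hup, hnu⟩
        have := hno u hu_mem (by rw [hdu]; norm_num)
        rw [hduz] at this
        omega
      -- the sum is large
      have hsum : X < (nm (z + z') : ℝ) := by
        by_contra hle
        push Not at hle
        have e1 : dt z (z + z') = 1 := by
          have : dt z (z + z') = dt z z' := by unfold dt; simp; ring
          rw [this, hd1]
        have e2 : dt (z + z') z' = 1 := by
          have : dt (z + z') z' = dt z z' := by unfold dt; simp; ring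
          rw [this, hd1]
        have := hno (z + z') ((mem_pball hD).2 ⟨prim_of_dt e1, hle⟩) (by rw [e1]; norm_num)
        rw [e2] at this
        norm_num at this
      refine ⟨(z, z'), ?_, ?_, ?_, ?_, ?_⟩
      · unfold Pool.Agent.W78.GS.A.sedge edge
        rw [mem_filter, mem_filter, mem_product]
        exact ⟨⟨⟨hz, hz'⟩, hd1, hsum⟩, hl⟩
      · simp only [dt]; nlinarith
      · exact hd
      · exact hd
      · simp only [dt]; nlinarith
    | succ N ih =>
      intro z z' hN hz hz' hd hl
      by_cases hcard : (I z z').card ≤ N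
      · exact ih z z' hcard hz hz' hd hl
      · have hne : (I z z').Nonempty := by
          rw [← Finset.card_pos]; omega
        obtain ⟨v, hv⟩ := hne
        obtain ⟨hvX, hv1, hv2⟩ := mem_filter.1 hv
        by_cases hlv : g (nm z) = g (nm v)
        · -- recursion on (v, z')
          have hsub : I v z' ⊆ (I z z').erase v := by
            intro u hu
            obtain ⟨h1, h2, h3⟩ := mem_filter.1 hu
            rw [mem_erase]
            constructor
            · rintro rfl
              simp only [dt] at h2
              nlinarith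
            · refine mem_filter.2 ⟨h1, ?_, h3⟩
              have hp := plucker z u v z'
              -- dt z u * dt v z' = dt z v * dt u z' + dt z z' * dt v u
              have h4 : 0 < dt z v * dt u z' + dt z z' * dt v u := by positivity
              rw [← hp] at h4
              exact (mul_pos_iff_of_pos_right hv2).1 h4
          have hc : (I v z').card ≤ N := by
            have h1 := Finset.card_le_card hsub
            rw [Finset.card_erase_of_mem hv] at h1
            omega
          obtain ⟨e, he, h1, h2, h3, h4⟩ := ih v z' hc hvX hz' hv2 (by rw [← hlv]; exact hl)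
          refine ⟨e, he, ?_, ?_, h3, h4⟩
          · -- 0 ≤ dt z e.1
            have hp := plucker z e.1 v z'
            have h5 : 0 ≤ dt z v * dt e.1 z' + dt z z' * dt v e.1 := by positivity
            rw [← hp] at h5
            exact nonneg_of_mul_nonneg_left h5 hv2
          · have hp := plucker z e.2 v z'
            have h5 : 0 < dt z v * dt e.2 z' + dt z z' * dt v e.2 := by positivity
            rw [← hp] at h5
            exact (mul_pos_iff_of_pos_right hv2).1 h5
        · have hsub : I z v ⊆ (I z z').erase v := by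
            intro u hu
            obtain ⟨h1, h2, h3⟩ := mem_filter.1 hu
            rw [mem_erase]
            constructor
            · rintro rfl
              simp only [dt] at h3
              nlinarith
            · refine mem_filter.2 ⟨h1, h2, ?_⟩
              have hp := plucker z v u z'
              -- dt z v * dt u z' = dt z u * dt v z' + dt z z' * dt u v
              have h4 : 0 < dt z u * dt v z' + dt z z' * dt u v := by positivity
              rw [← hp] at h4
              exact (mul_pos_iff_of_pos_left hv1).1 h4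
          have hc : (I z v).card ≤ N := by
            have h1 := Finset.card_le_card hsub
            rw [Finset.card_erase_of_mem hv] at h1
            omega
          obtain ⟨e, he, h1, h2, h3, h4⟩ := ih z v hc hz hvX hv1 hlv
          refine ⟨e, he, h1, h2, ?_, ?_⟩
          · have hp := plucker z v e.1 z'
            have h5 : 0 < dt z e.1 * dt v z' + dt z z' * dt e.1 v := by positivity
            rw [← hp] at h5
            exact (mul_pos_iff_of_pos_left hv1).1 h5
          · have hp := plucker z v e.2 z'
            have h5 : 0 ≤ dt z e.2 * dt v z' + dt z z' * dt e.2 v := by positivity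
            rw [← hp] at h5
            exact nonneg_of_mul_nonneg_right h5 hv1
  intro z z' hz hz' hd hl
  exact key _ z z' le_rfl hz hz' hd hl


/-- a pair of close directions with different signs is close to a sign change edge -/
lemma near_edge (hg : Pm g) (hD : t ^ 2 < 4 * c) (hB : S_BETW g t c) {U : ℝ} (hU : 1 ≤ U) {X : ℝ}
    {z z' u : Qd t c} (hz : z ∈ pball t c X)
    (hz' : z' ∈ pball t c X) (hu0 : u ≠ 0) (hu : (nm u : ℝ) ≤ U) (hgl : g (nm z) ≠ g (nm (u * z'))) {δ : ℝ}
    (hδ : δ ≤ 1 / 2) (hr : |rd (ang z - ang (u * z'))| ≤ δ) :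
    ∃ e ∈ Pool.Agent.W78.GS.A.sedge g t c (U * X), (∃ j : ℤ, |ang z - ang e.1 + 2 * Real.pi * j| ≤ δ) ∧
      (∃ j : ℤ, |ang z' - (ang e.1 - ang u) + 2 * Real.pi * j| ≤ δ) := by
  have hzp := (mem_pball hD).1 hz
  have hzp' := (mem_pball hD).1 hz'
  have hz0 := prim_ne_zero hzp.1
  have hz0' := prim_ne_zero hzp'.1
  have hw0 : u * z' ≠ 0 := mul_ne_zero' hD hu0 hz0'
  obtain ⟨y, n, hn, hy, hw⟩ := exists_primpart hw0
  have hy0 := prim_ne_zero hy
  have hX0 : 0 ≤ X := (Nat.cast_nonneg _).trans hzp.2
  have hyX : y ∈ pball t c (U * X) := by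
    refine (mem_pball hD).2 ⟨hy, ?_⟩
    have h1 : nm (u * z') = n ^ 2 * nm y := by rw [hw, nm_mul, nm_natCast]
    rw [nm_mul] at h1
    have h2 : (nm y : ℝ) ≤ nm u * nm z' := by
      have : nm y ≤ nm u * nm z' := by
        rw [h1]; exact Nat.le_mul_of_pos_left _ (by positivity)
      exact_mod_cast this
    calc (nm y : ℝ) ≤ nm u * nm z' := h2
      _ ≤ U * X := mul_le_mul hu hzp'.2 (Nat.cast_nonneg _) (by linarith)
  have hzX : z ∈ pball t c (U * X) := (mem_pball hD).2 ⟨hzp.1, by nlinarith [hzp.2]⟩
  have hang : ang (u * z') = ang y := by rw [hw, ang_natCast_mul hD hn]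
  have hgly : g (nm (u * z')) = g (nm y) := by
    rw [hw, nm_mul, nm_natCast, hg.sq_mul hn.ne' (nm_pos hD hy0).ne']
  rw [hgly] at hgl
  rw [hang] at hr
  obtain ⟨j1, hj1⟩ := ang_mul hD hu0 hz0'
  rw [hang] at hj1
  obtain ⟨m, hm⟩ := rd_eq (ang z - ang y)
  rw [hm] at hr
  have hdt : dt z y ≠ 0 := by
    intro h0
    rcases dt_zero hzp.1 hy h0 with h | h
    · exact hgl (by rw [h])
    · exact hgl (by rw [h, nm_neg])
  -- from closeness to `y` to closeness of `z'`
  have trans' : ∀ e : Qd t c, (∃ j : ℤ, |ang y - ang e + 2 * Real.pi * j| ≤ δ) →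
      (∃ j : ℤ, |ang z' - (ang e - ang u) + 2 * Real.pi * j| ≤ δ) := by
    rintro e ⟨j, hj⟩
    refine ⟨j + j1, ?_⟩
    have e1 : ang z' - (ang e - ang u) + 2 * Real.pi * ((j + j1 : ℤ) : ℝ) =
        ang y - ang e + 2 * Real.pi * j := by
      rw [hj1]; push_cast; ring
    rw [e1]; exact hj
  rcases lt_or_gt_of_ne hdt with hneg | hpos
  · have hd : 0 < dt y z := by
      have : dt y z = - dt z y := by unfold dt; ring
      omega
    obtain ⟨e, he, h1, h2, h3, h4⟩ := hB (U * X) y z hyX hzX hd (by
      intro h; exact hgl h.symm)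
    have he0 : e.1 ≠ 0 := by
      unfold Pool.Agent.W78.GS.A.sedge edge at he
      rw [mem_filter, mem_filter, mem_product] at he
      exact prim_ne_zero ((mem_pball hD).1 he.1.1.1).1
    have hs : |ang z - ang y + 2 * Real.pi * m| ≤ δ := hr
    obtain ⟨g1, g2⟩ := between hD hy0 hz0 he0 hd hδ hs h1 h3
    exact ⟨e, he, g2, trans' _ g1⟩
  · obtain ⟨e, he, h1, h2, h3, h4⟩ := hB (U * X) z y hzX hyX hpos hgl
    have he0 : e.1 ≠ 0 := by
      unfold Pool.Agent.W78.GS.A.sedge edge at he
      rw [mem_filter, mem_filter, mem_product] at he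
      exact prim_ne_zero ((mem_pball hD).1 he.1.1.1).1
    have hs : |ang y - ang z + 2 * Real.pi * ((-m : ℤ) : ℝ)| ≤ δ := by
      have : ang y - ang z + 2 * Real.pi * ((-m : ℤ) : ℝ) = -(ang z - ang y + 2 * Real.pi * m) := by
        push_cast; ring
      rw [this, abs_neg]; exact hr
    obtain ⟨g1, g2⟩ := between hD hz0 hy0 he0 hpos hδ hs h1 h3
    exact ⟨e, he, g1, trans' _ g2⟩


theorem pair_of (hg0 : Pm g) (hD : t ^ 2 < 4 * c) : S_SECT t c →  S_LAT t c → Pool.Agent.W78.GS.A.S_PAIR g t c := by
  classical
  intro hS hL U hU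
  have hB : S_BETW g t c := betw hD
  obtain ⟨C, hC, hS⟩ := hS
  obtain ⟨CL, hCL, hL, -⟩ := hL
  have hpi := Real.pi_pos
  have hkap : 0 < kap t c := by
    unfold kap
    have := sqrt_disc hD
    positivity
  refine ⟨C ^ 2 + (kap t c + CL) * (8 * C * Real.pi ^ 2), by positivity, ?_⟩
  intro X T K u hX hT hK hTK hu1 hnu
  have hX0 : 0 < X := by linarith
  have hT0 : 0 < T := by linarith
  have hKR : (1 : ℝ) ≤ K := by exact_mod_cast hK
  have hK0 : (0 : ℝ) < K := by linarith
  have hu0 : u ≠ 0 := (one_le_nm hD).1 hu1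
  have hδ : T / K ≤ 1 / 2 := by
    rw [div_le_div_iff₀ hK0 (by norm_num)]; linarith
  set r : Qd t c → Qd t c → ℝ := fun z z' => rd (ang z - ang (u * z')) with hr
  -- pointwise bound
  have hpt : ∀ z ∈ pball t c X, ∀ z' ∈ pball t c X,
      (if g (nm z) ≠ g (nm (u * z')) then Fj K (ang z - ang (u * z')) else 0) ≤
      (if g (nm z) ≠ g (nm (u * z')) ∧ |r z z'| ≤ T / K then (K : ℝ) else 0) +
      ∑ j ∈ range (K + 2), (if |r z z'| ≤ 2 ^ (j + 1) * T / K then
        Real.pi ^ 2 * K / (T ^ 2) * (1 / 4) ^ j else 0) := by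
    intro z _ z' _
    have h1 := pt_bound hK hT (abs_rd_le (ang z - ang (u * z')))
    have h2 : 0 ≤ ∑ j ∈ range (K + 2), (if |r z z'| ≤ 2 ^ (j + 1) * T / K then
        Real.pi ^ 2 * K / (T ^ 2) * (1 / 4) ^ j else 0) := by
      apply Finset.sum_nonneg
      intro j _
      split_ifs
      · positivity
      · exact le_rfl
    by_cases hg : g (nm z) ≠ g (nm (u * z'))
    · rw [if_pos hg, Fj_rd]
      refine h1.trans ?_
      apply add_le_add _ le_rfl
      by_cases hn : |rd (ang z - ang (u * z'))| ≤ T / K
      · rw [if_pos hn, if_pos ⟨hg, hn⟩]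
      · rw [if_neg hn]
        split_ifs
        · positivity
        · exact le_rfl
    · rw [if_neg hg]
      have : 0 ≤ (if g (nm z) ≠ g (nm (u * z')) ∧ |r z z'| ≤ T / K then (K : ℝ) else 0) := by
        split_ifs
        · positivity
        · exact le_rfl
      linarith
  -- near pairs
  have hnear : ∑ z ∈ pball t c X, ∑ z' ∈ pball t c X,
      (if g (nm z) ≠ g (nm (u * z')) ∧ |r z z'| ≤ T / K then (K : ℝ) else 0) ≤
      C ^ 2 * (K * (T * X / K + 1) ^ 2 * ((Pool.Agent.W78.GS.A.sedge g t c (U * X)).card : ℝ)) := by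
    rw [← Finset.sum_product', ← Finset.sum_filter, Finset.sum_const, nsmul_eq_mul]
    set A : Qd t c × Qd t c → Finset (Qd t c) := fun e =>
      (pball t c X).filter (fun z => ∃ j : ℤ, |ang z - ang e.1 + 2 * Real.pi * j| ≤ T / K) with hA
    set B : Qd t c × Qd t c → Finset (Qd t c) := fun e =>
      (pball t c X).filter (fun z => ∃ j : ℤ, |ang z - (ang e.1 - ang u) + 2 * Real.pi * j| ≤ T / K)
      with hBd
    have hsub : ((pball t c X ×ˢ pball t c X).filter
        (fun p : Qd t c × Qd t c => g (nm p.1) ≠ g (nm (u * p.2)) ∧ |r p.1 p.2| ≤ T / K)) ⊆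
        (Pool.Agent.W78.GS.A.sedge g t c (U * X)).biUnion (fun e => A e ×ˢ B e) := by
      rintro ⟨z, z'⟩ hp
      rw [mem_filter, mem_product] at hp
      obtain ⟨⟨hz, hz'⟩, hg, hn⟩ := hp
      obtain ⟨e, he, h1, h2⟩ := near_edge hg0 hD hB hU hz hz' hu0 hnu hg hδ hn
      rw [mem_biUnion]
      exact ⟨e, he, mem_product.2 ⟨mem_filter.2 ⟨hz, h1⟩, mem_filter.2 ⟨hz', h2⟩⟩⟩
    have hcard : (((pball t c X ×ˢ pball t c X).filter
        (fun p : Qd t c × Qd t c => g (nm p.1) ≠ g (nm (u * p.2)) ∧ |r p.1 p.2| ≤ T / K)).card : ℝ) ≤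
        ((Pool.Agent.W78.GS.A.sedge g t c (U * X)).card : ℝ) * (C * (X * (T / K) + 1)) ^ 2 := by
      have h1 := (Finset.card_le_card hsub).trans Finset.card_biUnion_le
      have h2 : ((∑ e ∈ Pool.Agent.W78.GS.A.sedge g t c (U * X), (A e ×ˢ B e).card : ℕ) : ℝ) ≤
          ∑ e ∈ Pool.Agent.W78.GS.A.sedge g t c (U * X), (C * (X * (T / K) + 1)) ^ 2 := by
        push_cast
        apply Finset.sum_le_sum
        intro e _
        rw [Finset.card_product]
        push_cast
        rw [pow_two]
        have hδ0 : 0 ≤ T / K := by positivity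
        have hδπ : T / K ≤ Real.pi := by have := Real.pi_gt_three; linarith
        apply mul_le_mul
        · have := hS X (T / K) (ang e.1) hX hδ0 hδπ
          simpa [hA] using this
        · have := hS X (T / K) (ang e.1 - ang u) hX hδ0 hδπ
          simpa [hBd] using this
        · positivity
        · positivity
      rw [Finset.sum_const, nsmul_eq_mul] at h2
      exact le_trans (by exact_mod_cast h1) h2
    calc (((pball t c X ×ˢ pball t c X).filter
        (fun p : Qd t c × Qd t c => g (nm p.1) ≠ g (nm (u * p.2)) ∧ |r p.1 p.2| ≤ T / K)).card : ℝ)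
          * K ≤ ((Pool.Agent.W78.GS.A.sedge g t c (U * X)).card : ℝ) * (C * (X * (T / K) + 1)) ^ 2 * K :=
          mul_le_mul_of_nonneg_right hcard hK0.le
      _ = C ^ 2 * (K * (T * X / K + 1) ^ 2 * ((Pool.Agent.W78.GS.A.sedge g t c (U * X)).card : ℝ)) := by
          have : X * (T / K) = T * X / K := by ring
          rw [this]; ring
  -- far pairs
  have hfar : ∑ z ∈ pball t c X, ∑ z' ∈ pball t c X,
      ∑ j ∈ range (K + 2), (if |r z z'| ≤ 2 ^ (j + 1) * T / K then
        Real.pi ^ 2 * K / (T ^ 2) * (1 / 4) ^ j else 0) ≤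
      (kap t c + CL) * (8 * C * Real.pi ^ 2) * (X ^ 2 / T + X * K / T ^ 2) := by
    have hone : ∀ z ∈ pball t c X, ∑ z' ∈ pball t c X,
        ∑ j ∈ range (K + 2), (if |r z z'| ≤ 2 ^ (j + 1) * T / K then
          Real.pi ^ 2 * K / (T ^ 2) * (1 / 4) ^ j else 0) ≤
        8 * C * Real.pi ^ 2 * (X / T + K / T ^ 2) := by
      intro z _
      rw [Finset.sum_comm]
      have hj : ∀ j ∈ range (K + 2), ∑ z' ∈ pball t c X, (if |r z z'| ≤ 2 ^ (j + 1) * T / K then
          Real.pi ^ 2 * K / (T ^ 2) * (1 / 4) ^ j else 0) ≤
          2 * C * Real.pi ^ 2 * X / T * (1 / 2) ^ j + C * Real.pi ^ 2 * K / T ^ 2 * (1 / 4) ^ j := by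
        intro j _
        rw [← Finset.sum_filter, Finset.sum_const, nsmul_eq_mul]
        set δ := min Real.pi (2 ^ (j + 1) * T / K) with hδd
        have hδ0 : 0 ≤ δ := le_min hpi.le (by positivity)
        have hsub : (pball t c X).filter (fun z' => |r z z'| ≤ 2 ^ (j + 1) * T / K) ⊆
            (pball t c X).filter (fun z' => ∃ m : ℤ, |ang z' - (ang z - ang u) + 2 * Real.pi * m| ≤ δ) := by
          intro z' hz'
          rw [mem_filter] at hz' ⊢
          refine ⟨hz'.1, ?_⟩
          obtain ⟨m, hm⟩ := rd_eq (ang z - ang (u * z'))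
          obtain ⟨j1, hj1⟩ := ang_mul hD hu0 (prim_ne_zero ((mem_pball hD).1 hz'.1).1)
          refine ⟨j1 - m, ?_⟩
          have e1 : ang z' - (ang z - ang u) + 2 * Real.pi * ((j1 - m : ℤ) : ℝ) = -(r z z') := by
            rw [hr]
            simp only
            rw [hm, hj1]
            push_cast; ring
          rw [e1, abs_neg]
          exact le_min (abs_rd_le _) hz'.2
        have h1 : (((pball t c X).filter (fun z' => |r z z'| ≤ 2 ^ (j + 1) * T / K)).card : ℝ) ≤
            C * (X * (2 ^ (j + 1) * T / K) + 1) := by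
          have h2 := hS X δ (ang z - ang u) hX hδ0 (min_le_left _ _)
          have h3 : (((pball t c X).filter (fun z' => |r z z'| ≤ 2 ^ (j + 1) * T / K)).card : ℝ) ≤
              (((pball t c X).filter (fun z' => ∃ m : ℤ,
                |ang z' - (ang z - ang u) + 2 * Real.pi * m| ≤ δ)).card : ℝ) := by
            exact_mod_cast Finset.card_le_card hsub
          have h4 : C * (X * δ + 1) ≤ C * (X * (2 ^ (j + 1) * T / K) + 1) := by
            apply mul_le_mul_of_nonneg_left _ hC.le
            have := mul_le_mul_of_nonneg_left (min_le_right Real.pi (2 ^ (j + 1) * T / K)) hX0.le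
            linarith
          exact h3.trans (h2.trans h4)
        calc _ ≤ C * (X * (2 ^ (j + 1) * T / K) + 1) * (Real.pi ^ 2 * K / T ^ 2 * (1 / 4) ^ j) :=
              mul_le_mul_of_nonneg_right h1 (by positivity)
          _ = 2 * C * Real.pi ^ 2 * X / T * (1 / 2) ^ j + C * Real.pi ^ 2 * K / T ^ 2 * (1 / 4) ^ j := by
              have e1 : (2 : ℝ) ^ (j + 1) * (1 / 4) ^ j = 2 * (1 / 2) ^ j := by
                rw [pow_succ, mul_comm ((2 : ℝ) ^ j) 2, mul_assoc, ← mul_pow]; norm_num
              have e2 : C * (X * (2 ^ (j + 1) * T / K) + 1) * (Real.pi ^ 2 * K / T ^ 2 * (1 / 4) ^ j) =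
                  C * X * Real.pi ^ 2 / T * (2 ^ (j + 1) * (1 / 4) ^ j) +
                    C * Real.pi ^ 2 * K / T ^ 2 * (1 / 4) ^ j := by
                field_simp
              rw [e2, e1]; ring
      refine (Finset.sum_le_sum hj).trans ?_
      rw [Finset.sum_add_distrib, ← Finset.mul_sum, ← Finset.mul_sum]
      have g1 := mul_le_mul_of_nonneg_left (geom_half (K + 2))
        (by positivity : 0 ≤ 2 * C * Real.pi ^ 2 * X / T)
      have g2 := mul_le_mul_of_nonneg_left (geom_quarter (K + 2))
        (by positivity : 0 ≤ C * Real.pi ^ 2 * K / T ^ 2)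
      have g3 : 0 ≤ C * Real.pi ^ 2 * X / T := by positivity
      have g4 : 0 ≤ C * Real.pi ^ 2 * K / T ^ 2 := by positivity
      calc _ ≤ 2 * C * Real.pi ^ 2 * X / T * 2 + C * Real.pi ^ 2 * K / T ^ 2 * 2 := add_le_add g1 g2
        _ = 4 * (C * Real.pi ^ 2 * X / T) + 2 * (C * Real.pi ^ 2 * K / T ^ 2) := by ring
        _ ≤ 8 * (C * Real.pi ^ 2 * X / T) + 8 * (C * Real.pi ^ 2 * K / T ^ 2) := by linarith
        _ = 8 * C * Real.pi ^ 2 * (X / T + K / T ^ 2) := by ring
    refine (Finset.sum_le_sum hone).trans ?_
    rw [Finset.sum_const, nsmul_eq_mul]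
    have hcard : ((pball t c X).card : ℝ) ≤ (kap t c + CL) * X := by
      have h1 : ((pball t c X).card : ℝ) ≤ ((ball t c X).card : ℝ) := by
        exact_mod_cast Finset.card_le_card (Finset.filter_subset _ _)
      have hL1 := hL X 1 0 hX le_rfl
      rw [filter_true_of_mem (by intro z _; unfold lat; simp)] at hL1
      have h2 := (abs_le.1 hL1).2
      rw [Nat.cast_one, div_one] at h2
      have h3 : Real.sqrt X ≤ X := by
        rw [Real.sqrt_le_left hX0.le]
        nlinarith
      have h4 := mul_le_mul_of_nonneg_left h3 hCL.le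
      linarith
    calc ((pball t c X).card : ℝ) * (8 * C * Real.pi ^ 2 * (X / T + K / T ^ 2))
        ≤ (kap t c + CL) * X * (8 * C * Real.pi ^ 2 * (X / T + K / T ^ 2)) :=
          mul_le_mul_of_nonneg_right hcard (by positivity)
      _ = (kap t c + CL) * (8 * C * Real.pi ^ 2) * (X ^ 2 / T + X * K / T ^ 2) := by ring
  have htot : ∑ z ∈ pball t c X, ∑ z' ∈ pball t c X,
      (if g (nm z) ≠ g (nm (u * z')) then Fj K (ang z - ang (u * z')) else 0) ≤
      C ^ 2 * (K * (T * X / K + 1) ^ 2 * ((Pool.Agent.W78.GS.A.sedge g t c (U * X)).card : ℝ)) +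
      (kap t c + CL) * (8 * C * Real.pi ^ 2) * (X ^ 2 / T + X * K / T ^ 2) := by
    refine (Finset.sum_le_sum fun z hz => Finset.sum_le_sum fun z' hz' => hpt z hz z' hz').trans ?_
    simp only [Finset.sum_add_distrib] at hnear hfar ⊢
    linarith
  refine htot.trans ?_
  have a1 : 0 ≤ (K : ℝ) * (T * X / K + 1) ^ 2 * ((Pool.Agent.W78.GS.A.sedge g t c (U * X)).card : ℝ) := by positivity
  have a2 : 0 ≤ X ^ 2 / T + X * K / T ^ 2 := by positivity
  have a3 : 0 ≤ (kap t c + CL) * (8 * C * Real.pi ^ 2) := by positivity
  have a4 : 0 ≤ C ^ 2 := by positivity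
  have b1 := mul_nonneg a3 a1
  have b2 := mul_nonneg a4 a2
  calc _ ≤ C ^ 2 * (K * (T * X / K + 1) ^ 2 * ((Pool.Agent.W78.GS.A.sedge g t c (U * X)).card : ℝ)) +
      (kap t c + CL) * (8 * C * Real.pi ^ 2) * (X ^ 2 / T + X * K / T ^ 2) +
      ((kap t c + CL) * (8 * C * Real.pi ^ 2)) * (K * (T * X / K + 1) ^ 2 * ((Pool.Agent.W78.GS.A.sedge g t c (U * X)).card : ℝ))
      + C ^ 2 * (X ^ 2 / T + X * K / T ^ 2) := by linarith
    _ = _ := by ring


end Pool.Agent.W347.GS
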